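import Pool.Agent.NH63.CD.Coef

set_option autoImplicit false

/-! # The coefficients as binomial sums -/

namespace Pool.Agent.NH63.CD

theorem cf_DE (m : ℕ) :
    (∀ j p, j + p = m → cf m j = 2 * cf m (j + 1) + (j + 2 * p).choose m) ∧
    (∀ j p, j + p = m → cf (m + 1) (j + 2) + (j + 2 * p + 1).choose (m + 1) = cf m j) := by
  have key : ∀ m, (∀ j p, j + p = m → cf m j = 2 * cf m (j + 1) + (j + 2 * p).choose m) →
      (∀ j p, j + p = m → cf (m + 1) (j + 2) + (j + 2 * p + 1).choose (m + 1) = cf m j) := by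
    intro m hD j p
    induction p generalizing j with
    | zero =>
      intro h
      obtain rfl : j = m := by omega
      have h1 := hD j 0 (by omega)
      rw [cf_of_lt (show j < j + 1 by omega)] at h1
      rw [cf_of_lt (show j + 1 < j + 2 by omega), h1]
      simp
    | succ p ih =>
      intro h
      have h1 := hD j (p + 1) h
      have h2 := ih (j + 1) (by omega)
      have h3 := cf_rec m (j + 1)
      have e1 : j + 1 + 1 = j + 2 := rfl
      have e2 : j + 1 + 2 = j + 3 := rfl
      have e3 : j + 2 * (p + 1) + 1 = (j + 2 * p + 2) + 1 := by ring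
      have e4 : j + 2 * (p + 1) = j + 2 * p + 2 := by ring
      have e5 : j + 1 + 2 * p + 1 = j + 2 * p + 2 := by ring
      rw [e1, e2] at h3
      rw [e2, e5] at h2
      rw [e4] at h1
      rw [e3, Nat.choose_succ_succ']
      omega
  induction m with
  | zero =>
    have h0 : ∀ j p, j + p = 0 → cf 0 j = 2 * cf 0 (j + 1) + (j + 2 * p).choose 0 := by
      intro j p h
      obtain rfl : j = 0 := by omega
      rw [cf_of_lt (show 0 < 0 + 1 by omega), cf_zero]
      simp
    exact ⟨h0, key 0 h0⟩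
  | succ m ih =>
    obtain ⟨hD, hE⟩ := ih
    have h1 : ∀ j p, j + p = m + 1 → cf (m + 1) j = 2 * cf (m + 1) (j + 1) +
        (j + 2 * p).choose (m + 1) := by
      intro j p h
      have hs : ∀ i r, i + r = m → cf (m + 1) (i + 1) = 2 * cf (m + 1) (i + 2) +
          (i + 2 * r + 1).choose (m + 1) := by
        intro i r hir
        have h2 := hE i r hir
        have h3 := cf_rec m i
        omega
      rcases j with _ | i
      · obtain rfl : p = m + 1 := by omega
        have h2 := hs 0 m (by omega)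
        have h3 := hE 0 m (by omega)
        rw [cf_zero] at h3
        rw [cf_zero, pow_succ]
        have h4 : (0 + 2 * (m + 1)).choose (m + 1) =
            (2 * m + 1).choose (m + 1) + (2 * m + 1).choose (m + 1) := by
          rw [show 0 + 2 * (m + 1) = (2 * m + 1) + 1 by ring, Nat.choose_succ_succ',
            Nat.choose_symm_half]
        rw [zero_add] at h2 h3
        rw [h4]
        simp only [zero_add] at h2 h3 ⊢
        omega
      · have h2 := hs i p (by omega)
        rw [h2, show i + 1 + 1 = i + 2 by ring, show i + 1 + 2 * p = i + 2 * p + 1 by ring]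
    exact ⟨h1, key _ h1⟩

theorem cf_lower (b : ℕ) (p q : ℕ) (hb : 2 * p ≤ b * (q + 2 + b)) :
    (2 * p + q - b : ℤ) * ((q + 2 * p).choose p : ℤ) ≤ (q + b) * (cf (q + p) q : ℤ) := by
  induction p generalizing q with
  | zero =>
    have h1 := (cf_DE q).1 q 0 (by omega)
    rw [cf_of_lt (show q < q + 1 by omega)] at h1
    have h2 : cf (q + 0) q = 1 := by
      rw [add_zero, h1]; simp
    rw [h2]
    simp only [mul_zero, add_zero, Nat.choose_zero_right, Nat.cast_one, mul_one, Nat.cast_zero]
    have : (0 : ℤ) ≤ b := by positivity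
    linarith
  | succ p ih =>
    have h1 := ih (q + 2) (by nlinarith)
    have h2 := (cf_DE (q + (p + 1))).2 q (p + 1) rfl
    have e1 : q + (p + 1) + 1 = q + 2 + p := by ring
    rw [e1] at h2
    have e2 : q + 2 * (p + 1) + 1 = (q + 2 * p + 2) + 1 := by ring
    have e3 : (q + 2 * (p + 1) + 1).choose (q + 2 + p) = (q + 2 * p + 3).choose (p + 1) := by
      rw [show q + 2 * (p + 1) + 1 = (q + 2 + p) + (p + 1) by ring,
        show q + 2 * p + 3 = (q + 2 + p) + (p + 1) by ring]
      exact Nat.choose_symm_add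
    rw [e3, show q + 2 * p + 3 = (q + 2 * p + 2) + 1 by ring, Nat.choose_succ_succ'] at h2
    have e4 : q + 2 + 2 * p = q + 2 * p + 2 := by ring
    rw [e4] at h1
    have h3 := Nat.choose_succ_right_eq (q + 2 * p + 2) p
    rw [show q + 2 * p + 2 - p = q + p + 2 by omega] at h3
    rw [show q + 2 * (p + 1) = q + 2 * p + 2 by ring, ← h2]
    generalize (q + 2 * p + 2).choose (p + 1) = x at h3
    generalize (q + 2 * p + 2).choose p = z at h1 h3
    generalize cf (q + 2 + p) (q + 2) = c at h1
    clear h2 e3 ih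
    zify at h3 hb
    push_cast at h1 ⊢
    have hx : (0 : ℤ) ≤ x := by positivity
    have hq : (0 : ℤ) ≤ q := by positivity
    have hp : (0 : ℤ) ≤ p := by positivity
    have hb0 : (0 : ℤ) ≤ b := by positivity
    generalize (x : ℤ) = x at *
    generalize (z : ℤ) = z at *
    generalize (c : ℤ) = c at *
    generalize (q : ℤ) = q at *
    generalize (p : ℤ) = p at *
    generalize (b : ℤ) = b at *
    have h4 : (q + 2 + b) * ((2 * (p + 1) + q - b) * x) ≤
        (q + 2 + b) * ((q + b) * (c + (z + x))) := by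
      have h5 : (q + b) * ((2 * p + (q + 2) - b) * z) ≤ (q + b) * ((q + 2 + b) * c) :=
        mul_le_mul_of_nonneg_left h1 (by linarith)
      have h6 : (q + b) * (2 * (p + 1) + q + 2 + b) * x ≥
          (q + 2 + b) * (2 * (p + 1) + q - b) * x := by
        refine mul_le_mul_of_nonneg_right ?_ hx
        nlinarith
      have h7 : (q + b) * (2 * (z * (q + p + 2))) = (q + b) * (2 * (x * (p + 1))) := by rw [h3]
      nlinarith
    exact le_of_mul_le_mul_left h4 (by linarith)

end Pool.Agent.NH63.CD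

namespace Pool.Agent.NH63.CD

theorem poly_aux (q P : ℤ) (h1 : 1 ≤ q) (h2 : q + 1 ≤ P) :
    q * (q + 2) * (q + P + 1) ≤ (P + 1) * (P + 2) * (P + q - 2) := by
  obtain ⟨u, hu⟩ : ∃ u, q = u + 1 := ⟨q - 1, by ring⟩
  obtain ⟨t, ht⟩ : ∃ t, P = q + 1 + t := ⟨P - (q + 1), by ring⟩
  have hu0 : 0 ≤ u := by linarith
  have ht0 : 0 ≤ t := by linarith
  subst hu
  subst ht
  have : 0 ≤ (u + 1 + 1 + t + 1) * (u + 1 + 1 + t + 2) * (u + 1 + 1 + t + (u + 1) - 2) -
      (u + 1) * (u + 1 + 2) * (u + 1 + (u + 1 + 1 + t) + 1) := by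
    have e : (u + 1 + 1 + t + 1) * (u + 1 + 1 + t + 2) * (u + 1 + 1 + t + (u + 1) - 2) -
      (u + 1) * (u + 1 + 2) * (u + 1 + (u + 1 + 1 + t) + 1) =
      t ^ 3 + 4 * t ^ 2 * u + 8 * t ^ 2 + 4 * t * u ^ 2 + 19 * t * u + 16 * t + 3 * u ^ 2 + 9 * u := by
      ring
    rw [e]
    positivity
  linarith

/-- for `3 q ≤ 2 m` the coefficients grow slowly -/
theorem cf_A (p q : ℕ) (h : q ≤ 2 * p) :
    q * (q + 2 * p + 1).choose (q + p) ≤ 2 * (2 * p + 1) * cf (q + p) q := by
  rcases Nat.eq_zero_or_pos q with hq0 | hq0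
  · rw [hq0]; simp
  have hp0 : 0 < p := by omega
  have e1 : (q + 2 * p + 1).choose (q + p) = (q + 2 * p + 1).choose (p + 1) := by
    rw [show q + 2 * p + 1 = (q + p) + (p + 1) by ring]
    exact Nat.choose_symm_add
  have e2 := Nat.add_one_mul_choose_eq (q + 2 * p) p

  have hD := (cf_DE (q + p)).1 q p rfl
  have e3 : (q + 2 * p).choose (q + p) = (q + 2 * p).choose p := by
    rw [show q + 2 * p = (q + p) + p by ring]
    exact Nat.choose_symm_add
  have l1 := cf_lower 1 p q
  have l2 := cf_lower 2 p q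
  have l0 : (q + 2 * p).choose p ≤ cf (q + p) q := by rw [hD, e3]; omega
  clear hD e3
  rw [e1]
  generalize (q + 2 * p + 1).choose (p + 1) = X at *
  generalize (q + 2 * p).choose p = x at *
  generalize cf (q + p) q = c at *
  zify at e2 l0 hq0 hp0 h ⊢
  push_cast at l1 l2
  have hx : (0 : ℤ) ≤ x := by positivity
  have hc : (0 : ℤ) ≤ c := by positivity
  have main : (p + 1 : ℤ) * (q * X) ≤ (p + 1) * (2 * (2 * p + 1) * c) := by
    have e4 : (p + 1 : ℤ) * (q * X) = q * (q + 2 * p + 1) * x := by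
      calc (p + 1 : ℤ) * (q * X) = q * (X * (p + 1)) := by ring
        _ = q * ((q + 2 * p + 1) * x) := by rw [← e2]
        _ = _ := by ring
    rw [e4]
    rcases eq_or_lt_of_le h with h3 | h3
    · have l3 := l1 (by nlinarith)
      rw [h3] at l3 ⊢
      nlinarith
    · rcases le_or_gt p (q + 4) with h4 | h4
      · have l3 := l2 (by omega)
        have h5 := poly_aux q (2 * p) (by exact_mod_cast hq0) (by exact_mod_cast h3)
        have h6 := mul_le_mul_of_nonneg_right h5 hx
        have h7 : (0 : ℤ) ≤ (2 * p + 1) * (2 * p + 2) := by positivity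
        have h8 := mul_le_mul_of_nonneg_left l3 h7
        have h9 : (q + 2 : ℤ) * (q * (q + 2 * p + 1) * x) ≤
            (q + 2) * ((p + 1) * (2 * (2 * p + 1) * c)) := by nlinarith
        exact le_of_mul_le_mul_left h9 (by positivity)
      · have h5 : (q : ℤ) * (q + 2 * p + 1) ≤ (p + 1) * (2 * (2 * p + 1)) := by
          have h6 : (q : ℤ) + 4 < p := by exact_mod_cast h4
          nlinarith
        calc (q : ℤ) * (q + 2 * p + 1) * x ≤ (p + 1) * (2 * (2 * p + 1)) * x :=
              mul_le_mul_of_nonneg_right h5 hx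
          _ ≤ (p + 1) * (2 * (2 * p + 1)) * c := mul_le_mul_of_nonneg_left l0 (by positivity)
          _ = _ := by ring
  exact le_of_mul_le_mul_left main (by positivity)

/-- the coefficients compared with those of the cross-polytope -/
theorem cf_cross {m j : ℕ} (h : 3 * (j + 1) ≤ 2 * m) :
    (j + 1) * cf m j ≤ 2 * (2 * m - j) * cf m (j + 1) := by
  obtain ⟨p, hp⟩ : ∃ p, m = j + 1 + p := ⟨m - (j + 1), by omega⟩
  subst hp
  have h1 := cf_A p (j + 1) (by omega)
  have h2 := (cf_DE (j + 1 + p)).1 j (p + 1) (by ring)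
  rw [h2, show 2 * (j + 1 + p) - j = j + 2 * p + 2 by omega]
  rw [show j + 2 * (p + 1) = j + 1 + 2 * p + 1 by ring]
  nlinarith

theorem cf_half {i j : ℕ} (h : j + 1 ≤ i) :
    (i - j) * cf i j ≤ 2 * (2 * i - j) * cf i (j + 1) := by
  obtain ⟨p, hp⟩ : ∃ p, i = j + 1 + p := ⟨i - (j + 1), by omega⟩
  subst hp
  have h1 := (cf_DE (j + 1 + p)).1 (j + 1) p rfl
  have h2 := (cf_DE (j + 1 + p)).1 j (p + 1) (by ring)
  have h3 := Nat.choose_mul_succ_eq (j + 1 + 2 * p) (j + 1 + p)
  rw [show j + 1 + 2 * p + 1 - (j + 1 + p) = p + 1 by omega] at h3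
  rw [show j + 2 * (p + 1) = j + 1 + 2 * p + 1 by ring] at h2
  rw [h2, show j + 1 + p - j = p + 1 by omega, show 2 * (j + 1 + p) - j = j + 2 * p + 2 by omega]
  generalize (j + 1 + 2 * p + 1).choose (j + 1 + p) = x at *
  generalize (j + 1 + 2 * p).choose (j + 1 + p) = z at *
  generalize cf (j + 1 + p) (j + 1) = c at *
  have h4 : z ≤ c := by omega
  nlinarith

/-- the effect of `TT` -/
theorem TT_half {i d : ℕ} {f : ℕ → ℕ} (hd : i ≤ d)
    (hf : ∀ j, j + 1 ≤ i → (i - j) * f j ≤ 2 * (d - j) * f (j + 1)) (j : ℕ) (hj : j + 1 ≤ i) :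
    (i - j) * TT i f j ≤ 2 * (d + 1 - j) * TT i f (j + 1) := by
  obtain ⟨t, ht⟩ : ∃ t, i = j + 1 + t := ⟨i - (j + 1), by omega⟩
  induction t generalizing j with
  | zero =>
    have h1 := hf j hj
    have h2 := TT_rec f (show j ≤ i by omega)
    have h3 := TT_rec f hj
    rw [TT_of_lt f (show i < j + 1 + 1 by omega)] at h3
    rw [h2]
    have e1 : i - j = 1 := by omega
    rw [e1] at h1 ⊢
    obtain ⟨r, hr⟩ : ∃ r, d = j + 1 + r := ⟨d - (j + 1), by omega⟩
    have e2 : d - j = r + 1 := by omega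
    have e3 : d + 1 - j = r + 2 := by omega
    rw [e2] at h1
    rw [e3]
    generalize TT i f (j + 1) = F at *
    generalize f j = u at *
    generalize f (j + 1) = v at *
    nlinarith
  | succ t ih =>
    have h1 := hf j hj
    have h4 := ih (j + 1) (by omega) (by omega)
    have h2 := TT_rec f (show j ≤ i by omega)
    have h3 := TT_rec f hj
    rw [h2]
    obtain ⟨r, hr⟩ : ∃ r, d = j + 1 + r := ⟨d - (j + 1), by omega⟩
    have e1 : i - j = t + 2 := by omega
    have e1' : i - (j + 1) = t + 1 := by omega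
    have e2 : d - j = r + 1 := by omega
    have e3 : d + 1 - j = r + 2 := by omega
    have e4 : d + 1 - (j + 1) = r + 1 := by omega
    rw [e1, e2] at h1
    rw [e1', e4] at h4
    rw [e1, e3]
    generalize TT i f (j + 1) = F at *
    generalize TT i f (j + 1 + 1) = G at *
    generalize f j = u at *
    generalize f (j + 1) = v at *
    nlinarith

theorem half {d i : ℕ} (hid : 2 * i ≤ d) (j : ℕ) (hj : j + 1 ≤ i) :
    (i - j) * (TT i)^[d - 2 * i] (cf i) j ≤
      2 * (d - j) * (TT i)^[d - 2 * i] (cf i) (j + 1) := by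
  obtain ⟨e, he⟩ : ∃ e, d = 2 * i + e := ⟨d - 2 * i, by omega⟩
  subst he
  clear hid
  rw [Nat.add_sub_cancel_left]
  induction e generalizing j with
  | zero => simpa using cf_half hj
  | succ e ih =>
    rw [Function.iterate_succ_apply']
    have := TT_half (d := 2 * i + e) (f := (TT i)^[e] (cf i)) (by omega) ih j hj
    rw [show 2 * i + (e + 1) = 2 * i + e + 1 by ring]
    exact this

/-- a crude bound -/
theorem cf_le (m i : ℕ) : cf m i * 2 ^ i ≤ 4 ^ m := by
  induction m generalizing i with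
  | zero =>
    rcases i with _ | i
    · rw [cf_zero]; norm_num
    · rw [cf_zero_succ]; norm_num
  | succ m ih =>
    have key : ∀ t i, m + 2 ≤ i + t → cf (m + 1) i * 2 ^ i ≤ 4 ^ (m + 1) := by
      intro t
      induction t with
      | zero =>
        intro i hi
        rw [cf_of_lt (by omega), zero_mul]
        positivity
      | succ t iht =>
        intro i hi
        rcases i with _ | i
        · rw [cf_zero]; simp
        · have h1 := ih i
          have h2 := iht (i + 2) (by omega)
          rw [cf_rec, pow_succ]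
          rw [pow_succ, pow_succ] at h2
          have h3 : 4 ^ (m + 1) = 4 * 4 ^ m := by rw [pow_succ]; ring
          rw [h3] at h2 ⊢
          generalize cf m i = a at *
          generalize cf (m + 1) (i + 2) = b at *
          nlinarith
    exact key (m + 2) i (by omega)

/-- alternating sums, the terms increasing from every second place -/
theorem alt_pair (t : ℕ → ℤ) (h0 : 0 ≤ t 0) : ∀ i : ℕ,
    (∀ j, j + 1 ≤ i → Even (i + (j + 1)) → t j ≤ t (j + 1)) →
    0 ≤ ∑ j ∈ Finset.range (i + 1), (-1) ^ (i + j) * t j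
  | 0, _ => by simpa using h0
  | 1, h => by
    have h1 := h 0 (by norm_num) (by norm_num)
    rw [Finset.sum_range_succ, Finset.sum_range_one]
    norm_num
    simpa using h1
  | (i + 2), h => by
    have h1 := alt_pair t h0 i (fun j hj he => h j (by omega) (by
      rw [show i + 2 + (j + 1) = i + (j + 1) + 2 by ring]
      exact he.add (by norm_num)))
    have h2 := h (i + 1) (by omega) ⟨i + 2, by ring⟩
    rw [Finset.sum_range_succ, Finset.sum_range_succ]
    have h3 : ∑ j ∈ Finset.range (i + 1), (-1) ^ (i + 2 + j) * t j =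
        ∑ j ∈ Finset.range (i + 1), (-1) ^ (i + j) * t j := by
      refine Finset.sum_congr rfl (fun j _ => ?_)
      rw [show i + 2 + j = i + j + 2 by ring, pow_add]
      norm_num
    have h4 : (-1 : ℤ) ^ (i + 2 + (i + 1)) = -1 := by
      rw [show i + 2 + (i + 1) = 2 * (i + 1) + 1 by ring]
      simp [pow_succ, pow_mul]
    have h5 : (-1 : ℤ) ^ (i + 2 + (i + 1 + 1)) = 1 := by
      rw [show i + 2 + (i + 1 + 1) = 2 * (i + 2) by ring]
      simp [pow_mul]
    rw [h3, h4, h5]
    linarith

theorem alt_lower (t : ℕ → ℤ) (i : ℕ) (h0 : ∀ j, 0 ≤ t j)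
    (h : ∑ j ∈ Finset.range i, t j ≤ t i) :
    0 ≤ ∑ j ∈ Finset.range (i + 1), (-1) ^ (i + j) * t j := by
  rw [Finset.sum_range_succ, ← two_mul, pow_mul, neg_one_sq, one_pow, one_mul]
  have h1 : - ∑ j ∈ Finset.range i, t j ≤ ∑ j ∈ Finset.range i, (-1) ^ (i + j) * t j := by
    rw [← Finset.sum_neg_distrib]
    refine Finset.sum_le_sum (fun j _ => ?_)
    have h2 := h0 j
    rcases neg_one_pow_eq_or ℤ (i + j) with h3 | h3 <;> rw [h3] <;> linarith
  linarith

end Pool.Agent.NH63.CD
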