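import Pool.Agent.NH63.CD.MM
import Pool.Agent.NH63.CD.Coef2

set_option autoImplicit false

/-! # Dense complexes: the numbers of cliques grow -/

namespace Pool.Agent.NH63.CD

open Finset Pool.Agent.W497.FS Pool.Agent.TH709.GG

variable {α : Type*} {H : SimpleGraph α} [DecidableEq α]

/-- from one level to the next ones -/
theorem chain {W : Finset α} {q D s₀ : ℕ}
    (h : ((q - s₀) * W.card + (s₀ + 1) * D) * (K H W (s₀ + 1)).card ≤
      (q + 1) * ((s₀ + 2) * (K H W (s₀ + 2)).card)) (s : ℕ) (h0 : s₀ ≤ s) (hs : s ≤ q) :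
    ((q - s) * W.card + (s + 1) * D) * (K H W (s + 1)).card ≤
      (q + 1) * ((s + 2) * (K H W (s + 2)).card) := by
  induction s, h0 using Nat.le_induction with
  | base => exact h
  | succ s h0 ih =>
    have h1 := ih (by omega)
    have h2 := moon_moser (H := H) W (s + 1)
    obtain ⟨t, ht⟩ : ∃ t, q = s + 1 + t := ⟨q - (s + 1), by omega⟩
    have e1 : q - s = t + 1 := by omega
    have e2 : q - (s + 1) = t := by omega
    rw [e1] at h1
    rw [e2]
    clear h ih
    subst ht
    have e3 : s + 1 + 1 = s + 2 := rfl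
    have e4 : s + 1 + 2 = s + 3 := rfl
    rw [e3, e4] at h2 ⊢
    generalize (K H W (s + 1)).card = A at h1 h2
    generalize (K H W (s + 2)).card = B at h1 h2 ⊢
    generalize (K H W (s + 3)).card = C at h2 ⊢
    generalize W.card = n at h1 h2 ⊢
    rcases Nat.eq_zero_or_pos B with hB | hB
    · subst hB; simp
    have hA : 0 < A := by
      rcases Nat.eq_zero_or_pos A with hA | hA
      · subst hA
        rw [zero_mul] at h2
        have : 0 < ((s + 2) * B) ^ 2 := by positivity
        omega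
      · exact hA
    -- cancel `A` and `s + 1`
    have h3 : A * ((s + 1) * ((t * n + (s + 2) * D) * B)) ≤
        A * ((s + 1) * ((s + 1 + t + 1) * ((s + 3) * C))) := by
      have h4 := Nat.mul_le_mul_left ((s + 2) * B) h1
      have h5 := Nat.mul_le_mul_left (s + 1 + t + 1) h2
      zify at h4 h5 ⊢
      nlinarith
    have h6 := Nat.le_of_mul_le_mul_left h3 hA
    exact Nat.le_of_mul_le_mul_left h6 (Nat.succ_pos s)

theorem K_le (W : Finset α) (s : ℕ) :
    (s + 1) * (K H W (s + 1)).card ≤ W.card * (K H W s).card := by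
  rw [← sum_lkF (H := H) W s]
  calc ∑ A ∈ K H W s, (lkF H W A).card ≤ ∑ _A ∈ K H W s, W.card :=
        Finset.sum_le_sum (fun A _ => Finset.card_le_card (fun x hx => (mem_lkF.1 hx).1))
    _ = W.card * (K H W s).card := by rw [Finset.sum_const, smul_eq_mul, mul_comm]

theorem growth {W : Finset α} {q D s₀ : ℕ} (hK : 0 < (K H W (s₀ + 1)).card) (hq : s₀ ≤ q)
    (h : ((q - s₀) * W.card + (s₀ + 1) * D) * (K H W (s₀ + 1)).card ≤
      (q + 1) * ((s₀ + 2) * (K H W (s₀ + 2)).card)) (j : ℕ) (h0 : s₀ + 1 ≤ j) (hj : j ≤ q + 1) :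
    D * (K H W j).card ≤ (j + 1) * (K H W (j + 1)).card := by
  have hD : D ≤ W.card := by
    have h1 := K_le (H := H) W (s₀ + 1)
    rw [show s₀ + 1 + 1 = s₀ + 2 from rfl] at h1
    obtain ⟨t, ht⟩ : ∃ t, q = s₀ + t := ⟨q - s₀, by omega⟩
    subst ht
    rw [Nat.add_sub_cancel_left] at h
    have h2 : (K H W (s₀ + 1)).card * ((s₀ + 1) * D) ≤
        (K H W (s₀ + 1)).card * ((s₀ + 1) * W.card) := by
      nlinarith
    exact Nat.le_of_mul_le_mul_left (Nat.le_of_mul_le_mul_left h2 hK) (Nat.succ_pos _)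
  obtain ⟨s, rfl⟩ : ∃ s, j = s + 1 := ⟨j - 1, by omega⟩
  have h1 := chain h s (by omega) (by omega)
  have h2 : D * ((q - s) * (K H W (s + 1)).card) ≤ (q - s) * W.card * (K H W (s + 1)).card := by
    calc D * ((q - s) * (K H W (s + 1)).card) ≤ W.card * ((q - s) * (K H W (s + 1)).card) :=
          Nat.mul_le_mul_right _ hD
      _ = (q - s) * W.card * (K H W (s + 1)).card := by ring
  obtain ⟨t, ht⟩ : ∃ t, q = s + t := ⟨q - s, by omega⟩
  have e1 : q - s = t := by omega
  rw [e1] at h1 h2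
  clear h
  subst ht
  have h3 : (s + t + 1) * (D * (K H W (s + 1)).card) ≤
      (s + t + 1) * ((s + 2) * (K H W (s + 2)).card) := by
    nlinarith
  exact Nat.le_of_mul_le_mul_left h3 (Nat.succ_pos _)

end Pool.Agent.NH63.CD
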