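import Pool.Agent.TH709.GG.Main

set_option autoImplicit false

/-! # The gamma-vector in terms of the numbers of cliques -/

namespace Pool.Agent.NH63.CD

open Polynomial Pool.Agent.W497.FS

/-- the coefficients of the top entry of the gamma-vector -/
def cf : ℕ → ℕ → ℕ
  | 0, 0 => 1
  | 0, (_ + 1) => 0
  | (m + 1), 0 => 4 ^ (m + 1)
  | (m + 1), (i + 1) => ∑ j ∈ Finset.Ico i (m + 1), cf m j

theorem cf_zero_succ (j : ℕ) : cf 0 (j + 1) = 0 := by rw [cf]

theorem cf_succ_succ (m i : ℕ) : cf (m + 1) (i + 1) = ∑ j ∈ Finset.Ico i (m + 1), cf m j := by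
  rw [cf]

theorem cf_zero (m : ℕ) : cf m 0 = 4 ^ m := by
  cases m <;> simp [cf]

theorem cf_of_lt {m i : ℕ} (h : m < i) : cf m i = 0 := by
  cases m with
  | zero =>
    obtain ⟨j, rfl⟩ : ∃ j, i = j + 1 := ⟨i - 1, by omega⟩
    rw [cf_zero_succ]
  | succ m =>
    obtain ⟨j, rfl⟩ : ∃ j, i = j + 1 := ⟨i - 1, by omega⟩
    rw [cf_succ_succ, Finset.Ico_eq_empty (by omega), Finset.sum_empty]

theorem cf_rec (m i : ℕ) : cf (m + 1) (i + 1) = cf m i + cf (m + 1) (i + 2) := by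
  rw [cf_succ_succ, cf_succ_succ]
  rcases Nat.lt_or_ge i (m + 1) with h | h
  · rw [Finset.sum_eq_sum_Ico_succ_bot h]
  · rw [Finset.Ico_eq_empty (by omega), Finset.Ico_eq_empty (by omega), Finset.sum_empty,
      cf_of_lt (show m < i by omega), add_zero]

/-- consecutive coefficients -/
theorem cf_ratio (m j : ℕ) (h : j + 1 ≤ m) : cf m j ≤ (m + 3) * cf m (j + 1) := by
  induction m generalizing j with
  | zero => omega
  | succ m ih =>
    rcases j with _ | j
    · rw [cf_zero, cf_rec, cf_zero, pow_succ]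
      have h1 : 0 < 4 ^ m := pow_pos (by norm_num) m
      nlinarith [Nat.zero_le (cf (m + 1) (0 + 2)), Nat.zero_le m]
    · have h1 := ih j (by omega)
      have h2 : cf m (j + 1) ≤ cf (m + 1) (j + 2) := by
        rw [cf_rec]; omega
      rw [cf_rec]
      nlinarith

/-- the effect of a factor `1 + 2 x` -/
def TT (i : ℕ) (f : ℕ → ℕ) (l : ℕ) : ℕ := ∑ j ∈ Finset.Ico l (i + 1), 2 ^ (j - l) * f j

theorem TT_of_lt {i l : ℕ} (f : ℕ → ℕ) (h : i < l) : TT i f l = 0 := by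
  rw [TT, Finset.Ico_eq_empty (by omega), Finset.sum_empty]

theorem TT_rec {i l : ℕ} (f : ℕ → ℕ) (h : l ≤ i) : TT i f l = f l + 2 * TT i f (l + 1) := by
  rw [TT, TT, Finset.sum_eq_sum_Ico_succ_bot (by omega), Nat.sub_self, pow_zero, one_mul,
    Finset.mul_sum]
  congr 1
  refine Finset.sum_congr rfl (fun j hj => ?_)
  rw [Finset.mem_Ico] at hj
  obtain ⟨k, hk⟩ : ∃ k, j = l + 1 + k := ⟨j - (l + 1), by omega⟩
  have h1 : j - l = k + 1 := by omega
  have h2 : j - (l + 1) = k := by omega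
  rw [h1, h2, pow_succ]
  ring

theorem TT_ratio {i ρ : ℕ} {f : ℕ → ℕ} (h : ∀ j, j + 1 ≤ i → f j ≤ ρ * f (j + 1)) (j : ℕ)
    (hj : j + 1 ≤ i) : TT i f j ≤ (ρ + 2) * TT i f (j + 1) := by
  have h1 := h j hj
  have h2 : f (j + 1) ≤ TT i f (j + 1) := by
    rw [TT_rec f hj]; omega
  rw [TT_rec f (by omega)]
  nlinarith

/-- the alternating functional -/
noncomputable def LL (i : ℕ) (f : ℕ → ℕ) (p : ℤ[X]) : ℤ :=
  ∑ j ∈ Finset.range (i + 1), (-1) ^ (i + j) * (f j : ℤ) * p.coeff j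

theorem LL_add (i : ℕ) (f : ℕ → ℕ) (p q : ℤ[X]) : LL i f (p + q) = LL i f p + LL i f q := by
  rw [LL, LL, LL, ← Finset.sum_add_distrib]
  exact Finset.sum_congr rfl (fun j _ => by rw [coeff_add]; ring)

theorem LL_C (i : ℕ) (f : ℕ → ℕ) (a : ℤ) (p : ℤ[X]) : LL i f (C a * p) = a * LL i f p := by
  rw [LL, LL, Finset.mul_sum]
  exact Finset.sum_congr rfl (fun j _ => by rw [coeff_C_mul]; ring)

theorem LL_zero (i : ℕ) (f : ℕ → ℕ) : LL i f 0 = 0 := by
  rw [LL]
  exact Finset.sum_eq_zero (fun j _ => by rw [coeff_zero, mul_zero])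

theorem LL_sum {ι : Type*} (i : ℕ) (f : ℕ → ℕ) (s : Finset ι) (g : ι → ℤ[X]) :
    LL i f (∑ a ∈ s, g a) = ∑ a ∈ s, LL i f (g a) := by
  classical
  induction s using Finset.induction_on with
  | empty => rw [Finset.sum_empty, Finset.sum_empty, LL_zero]
  | insert a s ha ih => rw [Finset.sum_insert ha, Finset.sum_insert ha, LL_add, ih]

theorem LL_y (i : ℕ) (f : ℕ → ℕ) (q : ℤ[X]) : LL i (TT i f) (y * q) = LL i f q := by
  have h0 : (y * q).coeff 0 = q.coeff 0 := by simp [y, mul_coeff_zero]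
  have h1 : ∀ j, (y * q).coeff (j + 1) = q.coeff (j + 1) + 2 * q.coeff j := by
    intro j
    have : y * q = q + C 2 * (X * q) := by
      rw [y]
      have : (C (2 : ℤ) : ℤ[X]) = 2 := by simp
      rw [this]; ring
    rw [this, coeff_add, coeff_C_mul, coeff_X_mul]
  rw [LL, LL, Finset.sum_range_succ']
  simp only [h0, h1]
  have h2 : ∑ j ∈ Finset.range (i + 1), (-1) ^ (i + j) * (f j : ℤ) * q.coeff j =
      ∑ j ∈ Finset.range (i + 1), ((-1) ^ (i + j) * (TT i f j : ℤ) * q.coeff j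
        + (-1) ^ (i + (j + 1)) * (TT i f (j + 1) : ℤ) * (2 * q.coeff j)) := by
    refine Finset.sum_congr rfl (fun j hj => ?_)
    rw [Finset.mem_range] at hj
    have h3 := TT_rec f (show j ≤ i by omega)
    rw [h3, ← add_assoc, pow_succ]
    push_cast
    ring
  rw [h2, Finset.sum_add_distrib, Finset.sum_range_succ' (fun j =>
    (-1) ^ (i + j) * (TT i f j : ℤ) * q.coeff j), Finset.sum_range_succ (fun j =>
      (-1) ^ (i + (j + 1)) * (TT i f (j + 1) : ℤ) * (2 * q.coeff j)), TT_of_lt f (Nat.lt_succ_self i)]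
  have h4 : ∑ k ∈ Finset.range i, (-1) ^ (i + (k + 1)) * (TT i f (k + 1) : ℤ) *
      (q.coeff (k + 1) + 2 * q.coeff k) =
      ∑ k ∈ Finset.range i, (-1) ^ (i + (k + 1)) * (TT i f (k + 1) : ℤ) * q.coeff (k + 1) +
      ∑ k ∈ Finset.range i, (-1) ^ (i + (k + 1)) * (TT i f (k + 1) : ℤ) * (2 * q.coeff k) := by
    rw [← Finset.sum_add_distrib]
    exact Finset.sum_congr rfl (fun k _ => by ring)
  rw [h4]
  push_cast
  ring

theorem LL_y_pow (i e : ℕ) (f : ℕ → ℕ) (q : ℤ[X]) :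
    LL i ((TT i)^[e] f) (y ^ e * q) = LL i f q := by
  induction e with
  | zero => simp
  | succ e ih =>
    rw [Function.iterate_succ_apply', pow_succ', mul_assoc, LL_y, ih]

theorem LL_w (m : ℕ) (q : ℤ[X]) : LL (m + 1) (cf (m + 1)) (w * q) = LL m (cf m) q := by
  have h0 : (w * q).coeff 0 = 0 := by simp [w, mul_coeff_zero]
  have h1 : ∀ j, (w * q).coeff (j + 1) = q.coeff j + (X * q).coeff j := by
    intro j
    have : w * q = X * (q + X * q) := by
      rw [w]; ring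
    rw [this, coeff_X_mul, coeff_add]
  rw [LL, LL, Finset.sum_range_succ', h0, mul_zero, add_zero]
  simp only [h1]
  have h2 : ∀ j, (-1 : ℤ) ^ (m + 1 + (j + 1)) = (-1) ^ (m + j) := by
    intro j
    rw [show m + 1 + (j + 1) = m + j + 2 by ring, pow_add]
    norm_num
  simp only [h2, mul_add, Finset.sum_add_distrib]
  have h3 : ∑ j ∈ Finset.range (m + 1), (-1) ^ (m + j) * (cf (m + 1) (j + 1) : ℤ) *
      (X * q).coeff j = - ∑ j ∈ Finset.range (m + 1),
        (-1) ^ (m + j) * (cf (m + 1) (j + 2) : ℤ) * q.coeff j := by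
    rw [Finset.sum_range_succ', Finset.sum_range_succ (fun j =>
      (-1) ^ (m + j) * (cf (m + 1) (j + 2) : ℤ) * q.coeff j), cf_of_lt (show m + 1 < m + 2 by omega)]
    simp only [coeff_X_mul, mul_coeff_zero, coeff_X_zero, zero_mul, mul_zero, add_zero,
      Nat.cast_zero]
    rw [← Finset.sum_neg_distrib]
    refine Finset.sum_congr rfl (fun j _ => ?_)
    rw [← add_assoc, pow_succ]
    ring
  rw [h3, ← sub_eq_add_neg, ← Finset.sum_sub_distrib]
  refine Finset.sum_congr rfl (fun j _ => ?_)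
  rw [cf_rec]
  push_cast
  ring

theorem LL_w_pow (n l : ℕ) (q : ℤ[X]) : LL (n + l) (cf (n + l)) (w ^ l * q) = LL n (cf n) q := by
  induction l with
  | zero => simp
  | succ l ih =>
    rw [← add_assoc, pow_succ', mul_assoc, LL_w, ih]

theorem LL_one (n : ℕ) : LL n (cf n) 1 = (-4) ^ n := by
  rw [LL, Finset.sum_eq_single 0]
  · rw [cf_zero, coeff_one_zero, mul_one, add_zero]
    push_cast
    rw [← mul_pow]; norm_num
  · intro j _ hj
    rw [coeff_one, if_neg hj, mul_zero]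
  · intro h
    exact absurd (Finset.mem_range.2 (Nat.succ_pos n)) h

theorem y_sq : y ^ 2 = C 4 * w + 1 := by
  have : (C (4 : ℤ) : ℤ[X]) = 4 := by simp
  rw [y, w, this]; ring

theorem LL_y_sq (n : ℕ) : LL n (cf n) ((y ^ 2) ^ n) = if n = 0 then 1 else 0 := by
  have h1 : (y ^ 2) ^ n = ∑ j ∈ Finset.range (n + 1), C (4 ^ j * (n.choose j : ℤ)) * w ^ j := by
    rw [y_sq, add_pow]
    refine Finset.sum_congr rfl (fun j _ => ?_)
    rw [one_pow, mul_one, mul_pow, C_mul, C_pow]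
    simp
    ring
  rw [h1, LL_sum]
  have h2 : ∀ j ∈ Finset.range (n + 1), LL n (cf n) (C (4 ^ j * (n.choose j : ℤ)) * w ^ j) =
      4 ^ j * (-4) ^ (n - j) * (n.choose j : ℤ) := by
    intro j hj
    rw [Finset.mem_range] at hj
    obtain ⟨k, rfl⟩ : ∃ k, n = k + j := ⟨n - j, by omega⟩
    have h3 := LL_w_pow k j 1
    rw [mul_one, LL_one] at h3
    rw [LL_C, h3, Nat.add_sub_cancel]
    ring
  rw [Finset.sum_congr rfl h2, ← add_pow]
  rcases n with _ | n
  · simp
  · simp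

theorem LL_lt {i l : ℕ} (f : ℕ → ℕ) (q : ℤ[X]) (h : i < l) : LL i f (w ^ l * q) = 0 := by
  rw [LL]
  refine Finset.sum_eq_zero (fun j hj => ?_)
  rw [Finset.mem_range] at hj
  have h1 : w ^ l * q = X ^ l * ((1 + X) ^ l * q) := by
    rw [w, mul_pow]; ring
  rw [h1, coeff_X_pow_mul', if_neg (by omega), mul_zero]

/-- **the gamma-vector from the coefficients** -/
theorem gamma_eq {d i : ℕ} (hi : 2 * i ≤ d) (a : ℕ → ℤ) :
    LL i ((TT i)^[d - 2 * i] (cf i))
      (∑ l ∈ Finset.range (d / 2 + 1), C (a l) * w ^ l * y ^ (d - 2 * l)) = a i := by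
  rw [LL_sum, Finset.sum_eq_single i]
  · rw [mul_assoc, LL_C, mul_comm (w ^ i), LL_y_pow]
    have h := LL_w_pow 0 i 1
    rw [mul_one, zero_add, LL_one, pow_zero] at h
    rw [h, mul_one]
  · intro l _ hl
    rcases Nat.lt_or_ge i l with h | h
    · rw [mul_assoc, LL_C, LL_lt _ _ h, mul_zero]
    · obtain ⟨k, hk⟩ : ∃ k, i = k + 1 + l := ⟨i - l - 1, by omega⟩
      have h1 : w ^ l * y ^ (d - 2 * l) = y ^ (d - 2 * i) * (w ^ l * (y ^ 2) ^ (k + 1)) := by
        have h2 : d - 2 * l = (d - 2 * i) + 2 * (k + 1) := by omega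
        rw [h2, pow_add, pow_mul]
        ring
      rw [mul_assoc, LL_C, h1, LL_y_pow, hk, LL_w_pow, LL_y_sq, if_neg (by omega), mul_zero]
  · intro h
    exfalso
    apply h
    rw [Finset.mem_range]
    omega

/-- the ratios of consecutive coefficients -/
theorem ratio {d i : ℕ} (j : ℕ) (hj : j + 1 ≤ i) :
    (TT i)^[d - 2 * i] (cf i) j ≤
      (i + 3 + 2 * (d - 2 * i)) * (TT i)^[d - 2 * i] (cf i) (j + 1) := by
  generalize d - 2 * i = e
  induction e generalizing j with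
  | zero => simpa using cf_ratio i j hj
  | succ e ih =>
    rw [Function.iterate_succ_apply']
    have := TT_ratio (ρ := i + 3 + 2 * e) (f := (TT i)^[e] (cf i)) ih j hj
    rw [show i + 3 + 2 * (e + 1) = i + 3 + 2 * e + 2 by ring]
    exact this

/-- alternating sums of increasing sequences -/
theorem alt_nonneg (t : ℕ → ℤ) (i : ℕ) (h0 : 0 ≤ t 0) (h : ∀ j, j + 1 ≤ i → t j ≤ t (j + 1)) :
    0 ≤ ∑ j ∈ Finset.range (i + 1), (-1) ^ (i + j) * t j ∧
      ∑ j ∈ Finset.range (i + 1), (-1) ^ (i + j) * t j ≤ t i := by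
  induction i with
  | zero => simp [h0]
  | succ i ih =>
    obtain ⟨h1, h2⟩ := ih (fun j hj => h j (by omega))
    have h3 := h i (le_refl _)
    have h4 : ∑ j ∈ Finset.range (i + 1 + 1), (-1) ^ (i + 1 + j) * t j =
        t (i + 1) - ∑ j ∈ Finset.range (i + 1), (-1) ^ (i + j) * t j := by
      rw [Finset.sum_range_succ, ← two_mul, pow_mul, neg_one_sq, one_pow, one_mul, add_comm,
        sub_eq_add_neg, ← Finset.sum_neg_distrib]
      congr 1
      refine Finset.sum_congr rfl (fun j _ => ?_)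
      rw [show i + 1 + j = i + j + 1 by ring, pow_succ]
      ring
    rw [h4]
    constructor <;> linarith

theorem LL_nonneg {i : ℕ} {f : ℕ → ℕ} {p : ℤ[X]} (h0 : 0 ≤ p.coeff 0)
    (h : ∀ j, j + 1 ≤ i → (f j : ℤ) * p.coeff j ≤ f (j + 1) * p.coeff (j + 1)) :
    0 ≤ LL i f p := by
  have h1 := (alt_nonneg (fun j => (f j : ℤ) * p.coeff j) i (by positivity)
    (fun j hj => h j hj)).1
  rw [LL]
  refine h1.trans (le_of_eq (Finset.sum_congr rfl (fun j _ => ?_)))
  ring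

end Pool.Agent.NH63.CD
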