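import Pool.Agent.TH709.GG.Main

set_option autoImplicit false

/-! # The Moon and Moser inequality for the cliques of a graph -/

namespace Pool.Agent.NH63.CD

open Finset Pool.Agent.W497.FS Pool.Agent.TH709.GG

open scoped Classical in
/-- the cliques of `H` with `i` vertices in `W` -/
noncomputable def K {α : Type*} (H : SimpleGraph α) (W : Finset α) (i : ℕ) : Finset (Finset α) :=
  (cl H W).filter (fun σ => σ.card = i)

variable {α : Type*} {H : SimpleGraph α} [DecidableEq α]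

theorem mem_K {W σ : Finset α} {i : ℕ} : σ ∈ K H W i ↔ σ ∈ cl H W ∧ σ.card = i := by
  unfold K
  rw [Finset.mem_filter]

theorem insert_mem_K {W A : Finset α} {r : ℕ} {x : α} (hA : A ∈ K H W r) (hx : x ∈ lkF H W A) :
    insert x A ∈ K H W (r + 1) ∧ x ∉ A := by
  obtain ⟨h1, h2⟩ := mem_K.1 hA
  obtain ⟨h3, h4⟩ := mem_lkF.1 hx
  have hxA : x ∉ A := fun h => (h4 x h).ne rfl
  refine ⟨mem_K.2 ⟨?_, by rw [Finset.card_insert_of_notMem hxA, h2]⟩, hxA⟩
  obtain ⟨h5, h6⟩ := mem_cl.1 h1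
  rw [mem_cl]
  refine ⟨fun z hz => ?_, fun a ha b hb hab => ?_⟩
  · rcases Finset.mem_insert.1 hz with rfl | hz
    · exact h3
    · exact h5 hz
  · rcases Finset.mem_insert.1 ha with ha' | ha' <;> rcases Finset.mem_insert.1 hb with hb' | hb'
    · exact absurd (ha'.trans hb'.symm) hab
    · rw [ha']; exact (h4 b hb').symm
    · rw [hb']; exact h4 a ha'
    · exact h6 a ha' b hb' hab

theorem erase_mem_K {W C : Finset α} {r : ℕ} {y : α} (hC : C ∈ K H W (r + 1)) (hy : y ∈ C) :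
    C.erase y ∈ K H W r ∧ y ∈ lkF H W (C.erase y) := by
  obtain ⟨h1, h2⟩ := mem_K.1 hC
  obtain ⟨h5, h6⟩ := mem_cl.1 h1
  refine ⟨mem_K.2 ⟨cl_of_subset h1 (Finset.erase_subset _ _), ?_⟩, ?_⟩
  · rw [Finset.card_erase_of_mem hy, h2]; rfl
  · rw [mem_lkF]
    exact ⟨h5 hy, fun z hz => h6 z (Finset.mem_of_mem_erase hz) y hy (Finset.ne_of_mem_erase hz)⟩

/-- double counting of the pairs of a clique and one of its vertices -/
theorem sum_erase (W : Finset α) (r : ℕ) (g : Finset α → ℕ) :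
    ∑ C ∈ K H W (r + 1), ∑ y ∈ C, g (C.erase y) =
      ∑ A ∈ K H W r, (lkF H W A).card * g A := by
  have h1 : ∀ A ∈ K H W r, (lkF H W A).card * g A = ∑ _x ∈ lkF H W A, g A := fun A _ => by
    rw [Finset.sum_const, smul_eq_mul]
  rw [Finset.sum_congr rfl h1, Finset.sum_sigma', Finset.sum_sigma']
  refine Finset.sum_bij' (fun p _ => ⟨p.1.erase p.2, p.2⟩) (fun q _ => ⟨insert q.2 q.1, q.2⟩)
    ?_ ?_ ?_ ?_ ?_
  · rintro ⟨C, y⟩ h
    obtain ⟨h2, h3⟩ := Finset.mem_sigma.1 h
    exact Finset.mem_sigma.2 (erase_mem_K h2 h3)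
  · rintro ⟨A, x⟩ h
    obtain ⟨h2, h3⟩ := Finset.mem_sigma.1 h
    exact Finset.mem_sigma.2 ⟨(insert_mem_K h2 h3).1, Finset.mem_insert_self _ _⟩
  · rintro ⟨C, y⟩ h
    obtain ⟨h2, h3⟩ := Finset.mem_sigma.1 h
    simp only at h3 ⊢
    rw [Finset.insert_erase h3]
  · rintro ⟨A, x⟩ h
    obtain ⟨h2, h3⟩ := Finset.mem_sigma.1 h
    simp only at h2 h3 ⊢
    rw [Finset.erase_insert (insert_mem_K h2 h3).2]
  · rintro ⟨C, y⟩ h
    rfl

theorem sum_lkF (W : Finset α) (r : ℕ) :
    ∑ A ∈ K H W r, (lkF H W A).card = (r + 1) * (K H W (r + 1)).card := by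
  have h := sum_erase (H := H) W r (fun _ => 1)
  simp only [mul_one, Finset.sum_const, smul_eq_mul] at h
  rw [← h, Finset.sum_congr rfl (fun C hC => (mem_K.1 hC).2), Finset.sum_const, smul_eq_mul,
    mul_comm]

theorem local_bound {W C : Finset α} {r : ℕ} (hC : C ∈ K H W (r + 1)) :
    ∑ y ∈ C, (lkF H W (C.erase y)).card ≤ W.card + r * (lkF H W C).card := by
  have h1 : ∀ y ∈ C, (lkF H W (C.erase y)).card =
      ∑ x ∈ W, if x ∈ lkF H W (C.erase y) then 1 else 0 := by
    intro y _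
    rw [Finset.sum_ite_mem, Finset.sum_const, smul_eq_mul, mul_one]
    congr 1
    symm
    rw [Finset.inter_eq_right]
    exact fun x hx => (mem_lkF.1 hx).1
  have h2 : (lkF H W C).card = ∑ x ∈ W, if x ∈ lkF H W C then 1 else 0 := by
    rw [Finset.sum_ite_mem, Finset.sum_const, smul_eq_mul, mul_one]
    congr 1
    symm
    rw [Finset.inter_eq_right]
    exact fun x hx => (mem_lkF.1 hx).1
  rw [Finset.sum_congr rfl h1, Finset.sum_comm, h2, Finset.mul_sum]
  have h3 : W.card = ∑ _x ∈ W, 1 := by simp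
  rw [h3, ← Finset.sum_add_distrib]
  refine Finset.sum_le_sum (fun x hx => ?_)
  by_cases hxC : x ∈ lkF H W C
  · rw [if_pos hxC, mul_one]
    calc ∑ y ∈ C, (if x ∈ lkF H W (C.erase y) then 1 else 0) ≤ ∑ _y ∈ C, 1 :=
          Finset.sum_le_sum (fun y _ => by split_ifs <;> omega)
      _ = 1 + r := by
          rw [Finset.sum_const, smul_eq_mul, mul_one, (mem_K.1 hC).2]; omega
  · rw [if_neg hxC, mul_zero, add_zero]
    have h4 : ∃ z ∈ C, ¬ H.Adj z x := by
      by_contra hcon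
      push Not at hcon
      exact hxC (mem_lkF.2 ⟨hx, hcon⟩)
    obtain ⟨z, hz, hzx⟩ := h4
    rw [Finset.sum_eq_single z]
    · split_ifs <;> omega
    · intro y hy hyz
      rw [if_neg]
      intro hcon
      exact hzx ((mem_lkF.1 hcon).2 z (Finset.mem_erase.2 ⟨hyz.symm, hz⟩))
    · exact fun h => absurd hz h

/-- **The inequality of Moon and Moser.** -/
theorem moon_moser (W : Finset α) (r : ℕ) :
    ((r + 1) * (K H W (r + 1)).card) ^ 2 ≤ (K H W r).card *
      (W.card * (K H W (r + 1)).card + r * ((r + 2) * (K H W (r + 2)).card)) := by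
  have h1 : ∑ A ∈ K H W r, (lkF H W A).card ^ 2 ≤
      W.card * (K H W (r + 1)).card + r * ((r + 2) * (K H W (r + 2)).card) := by
    have h2 := sum_erase (H := H) W r (fun A => (lkF H W A).card)
    have h3 : ∑ A ∈ K H W r, (lkF H W A).card ^ 2 =
        ∑ C ∈ K H W (r + 1), ∑ y ∈ C, (lkF H W (C.erase y)).card := by
      rw [h2]
      exact Finset.sum_congr rfl (fun A _ => by ring)
    rw [h3, ← sum_lkF (H := H) W (r + 1), Finset.mul_sum, mul_comm W.card, ← smul_eq_mul,
      ← Finset.sum_const, ← Finset.sum_add_distrib]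
    exact Finset.sum_le_sum (fun C hC => local_bound hC)
  have h4 := sq_sum_le_card_mul_sum_sq (s := K H W r) (f := fun A => (lkF H W A).card)
  rw [sum_lkF] at h4
  exact h4.trans (Nat.mul_le_mul_left _ h1)

theorem K_zero (W : Finset α) : (K H W 0).card = 1 := by
  have : K H W 0 = {∅} := by
    ext σ
    rw [mem_K, Finset.mem_singleton]
    constructor
    · rintro ⟨-, h⟩; exact Finset.card_eq_zero.1 h
    · rintro rfl; exact ⟨empty_mem_cl, rfl⟩
  rw [this, Finset.card_singleton]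

theorem K_one (W : Finset α) : (K H W 1).card = W.card := by
  have h := sum_lkF (H := H) W 0
  rw [zero_add, one_mul] at h
  rw [← h]
  have : K H W 0 = {∅} := by
    ext σ
    rw [mem_K, Finset.mem_singleton]
    constructor
    · rintro ⟨-, h⟩; exact Finset.card_eq_zero.1 h
    · rintro rfl; exact ⟨empty_mem_cl, rfl⟩
  rw [this, Finset.sum_singleton, lkF_empty]

end Pool.Agent.NH63.CD
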