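import Pool.Agent.NH63.CD.Chain
import Pool.Agent.Y365.FS.Sph

set_option autoImplicit false
set_option linter.unusedSectionVars false
set_option linter.unusedVariables false

/-! # Dense flag complexes -/

namespace Pool.Agent.NH63.CD

open Polynomial Pool.Agent.W497.FS Pool.Agent.TH709.GG

section

variable {α : Type*} {H : SimpleGraph α} [DecidableEq α]

theorem coeff_FP (W : Finset α) (j : ℕ) : (FP H W).coeff j = (K H W j).card := by
  rw [FP, finsetSum_coeff, K, Finset.card_filter]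
  push_cast
  refine Finset.sum_congr rfl (fun σ _ => ?_)
  rw [coeff_X_pow]
  by_cases h : σ.card = j
  · rw [if_pos h, if_pos h.symm]
  · rw [if_neg h, if_neg (fun h' => h h'.symm)]

theorem EP.K_pos {d : ℕ} {W : Finset α} (h : EP H d W) {s : ℕ} (hs : s ≤ d) :
    0 < (K H W s).card := by
  obtain ⟨τ, hτ, -, h1⟩ := h.pure ∅ empty_mem_cl
  obtain ⟨σ, h2, h3⟩ := Finset.exists_subset_card_eq (show s ≤ τ.card by omega)
  exact Finset.card_pos.2 ⟨σ, mem_K.2 ⟨cl_of_subset hτ h2, h3⟩⟩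

/-- the links have many vertices -/
theorem EP.K_growth {d : ℕ} {W : Finset α} (h : EP H d W) {j : ℕ} (hj : j ≤ d) :
    2 * (d - j) * (K H W j).card ≤ (j + 1) * (K H W (j + 1)).card := by
  rw [← sum_lkF (H := H) W j, mul_comm, ← smul_eq_mul, ← Finset.sum_const]
  refine Finset.sum_le_sum (fun A hA => ?_)
  obtain ⟨h1, h2⟩ := mem_K.1 hA
  exact (h.link h1 (show d - j + A.card = d by omega)).two_mul_le

/-- the condition `(r - 1) (s + 1) k_(s+1) ≥ ((r - 1 - s) n + s D) k_s`, where `r = q + 2`,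
`s = s₀ + 1` -/
def Dense (H : SimpleGraph α) (W : Finset α) (q D s₀ : ℕ) : Prop :=
  ((q - s₀) * W.card + (s₀ + 1) * D) * (K H W (s₀ + 1)).card ≤
      (q + 1) * ((s₀ + 2) * (K H W (s₀ + 2)).card)

/-- the general criterion -/
theorem gamma_nonneg_aux {d q D s₀ : ℕ} {W : Finset α} (hE : EP H d W) (a : ℕ → ℤ)
    (ha : FP H W = ∑ i ∈ Finset.range (d / 2 + 1), C (a i) * w ^ i * y ^ (d - 2 * i))
    (h : Dense H W q D s₀) (i : ℕ) (hi : i ≤ q + 2) (hs : s₀ ≤ q)
    (hid : 2 * i ≤ d) (hsi : s₀ + 1 ≤ i)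
    (hlow : ∀ j, j ≤ s₀ → (j + 1) * (TT i)^[d - 2 * i] (cf i) j ≤
      2 * (d - j) * (TT i)^[d - 2 * i] (cf i) (j + 1))
    (hD : i * (i + 3 + 2 * (d - 2 * i)) ≤ D) : 0 ≤ a i := by
  have h1 := gamma_eq hid a
  rw [← ha] at h1
  rw [← h1]
  refine LL_nonneg ?_ (fun j hj => ?_)
  · rw [coeff_FP]; positivity
  rw [coeff_FP, coeff_FP]
  norm_cast
  rcases Nat.lt_or_ge s₀ j with hj0 | hj0
  · have h2 := growth (EP.K_pos hE (by omega)) hs h j (by omega) (by omega)
    have h3 : i * ((i + 3 + 2 * (d - 2 * i)) * (K H W j).card) ≤ i * (K H W (j + 1)).card := by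
      calc i * ((i + 3 + 2 * (d - 2 * i)) * (K H W j).card)
          = i * (i + 3 + 2 * (d - 2 * i)) * (K H W j).card := by ring
        _ ≤ D * (K H W j).card := Nat.mul_le_mul_right _ hD
        _ ≤ (j + 1) * (K H W (j + 1)).card := h2
        _ ≤ i * (K H W (j + 1)).card := Nat.mul_le_mul_right _ hj
    have h4 := Nat.le_of_mul_le_mul_left h3 (by omega)
    have h5 := ratio (d := d) j hj
    calc (TT i)^[d - 2 * i] (cf i) j * (K H W j).card
        ≤ (i + 3 + 2 * (d - 2 * i)) * (TT i)^[d - 2 * i] (cf i) (j + 1) * (K H W j).card :=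
          Nat.mul_le_mul_right _ h5
      _ = (TT i)^[d - 2 * i] (cf i) (j + 1) * ((i + 3 + 2 * (d - 2 * i)) * (K H W j).card) := by
          ring
      _ ≤ _ := Nat.mul_le_mul_left _ h4
  · have h2 := hlow j hj0
    have h3 := EP.K_growth hE (show j ≤ d by omega)
    have h4 : (j + 1) * ((TT i)^[d - 2 * i] (cf i) j * (K H W j).card) ≤
        (j + 1) * ((TT i)^[d - 2 * i] (cf i) (j + 1) * (K H W (j + 1)).card) := by
      calc (j + 1) * ((TT i)^[d - 2 * i] (cf i) j * (K H W j).card)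
          = ((j + 1) * (TT i)^[d - 2 * i] (cf i) j) * (K H W j).card := by ring
        _ ≤ (2 * (d - j) * (TT i)^[d - 2 * i] (cf i) (j + 1)) * (K H W j).card :=
            Nat.mul_le_mul_right _ h2
        _ = (TT i)^[d - 2 * i] (cf i) (j + 1) * (2 * (d - j) * (K H W j).card) := by ring
        _ ≤ (TT i)^[d - 2 * i] (cf i) (j + 1) * ((j + 1) * (K H W (j + 1)).card) :=
            Nat.mul_le_mul_left _ h3
        _ = _ := by ring
    exact Nat.le_of_mul_le_mul_left h4 (Nat.succ_pos j)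

/-- **the gamma-numbers of dense complexes** -/
theorem gamma_nonneg {d q D s₀ : ℕ} {W : Finset α} (hE : EP H d W) (a : ℕ → ℤ)
    (ha : FP H W = ∑ i ∈ Finset.range (d / 2 + 1), C (a i) * w ^ i * y ^ (d - 2 * i))
    (h : Dense H W q D s₀) (i : ℕ) (hi : i ≤ q + 2) (hs : s₀ ≤ q)
    (hid : 2 * i ≤ d) (hsi : i = 0 ∨ 2 * (s₀ + 1) ≤ i + 1)
    (hD : i * (i + 3 + 2 * (d - 2 * i)) ≤ D) : 0 ≤ a i := by
  rcases hsi with rfl | hsi
  · have h1 := gamma_eq hid a
    rw [← ha] at h1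
    rw [← h1]
    refine LL_nonneg ?_ (fun j hj => by omega)
    rw [coeff_FP]; positivity
  refine gamma_nonneg_aux hE a ha h i hi hs hid (by omega) (fun j hj => ?_) hD
  exact (Nat.mul_le_mul_right _ (by omega)).trans (half hid j (by omega))

theorem two_mul_K {m : ℕ} {W : Finset α} (hE : EP H (2 * m) W) {j : ℕ} (hj : j + 1 ≤ m) :
    2 * (K H W j).card ≤ (K H W (j + 1)).card := by
  have h1 := EP.K_growth hE (show j ≤ 2 * m by omega)
  have h2 : (j + 1) * (2 * (K H W j).card) ≤ (j + 1) * (K H W (j + 1)).card := by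
    calc (j + 1) * (2 * (K H W j).card) ≤ (2 * m - j) * (2 * (K H W j).card) :=
          Nat.mul_le_mul_right _ (by omega)
      _ = 2 * (2 * m - j) * (K H W j).card := by ring
      _ ≤ _ := h1
  exact Nat.le_of_mul_le_mul_left h2 (Nat.succ_pos j)

theorem two_pow_mul_K {m : ℕ} {W : Finset α} (hE : EP H (2 * m) W) (j t : ℕ) (hj : j + t ≤ m) :
    2 ^ t * (K H W j).card ≤ (K H W (j + t)).card := by
  induction t with
  | zero => simp
  | succ t ih =>
    have h1 := ih (by omega)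
    have h2 := two_mul_K hE (j := j + t) (by omega)
    rw [← add_assoc, pow_succ]
    calc 2 ^ t * 2 * (K H W j).card = 2 * (2 ^ t * (K H W j).card) := by ring
      _ ≤ 2 * (K H W (j + t)).card := Nat.mul_le_mul_left _ h1
      _ ≤ _ := h2

/-- the terms of the alternating sum below the last one -/
theorem small_terms {q : ℕ} {W : Finset α} (hE : EP H (2 * (q + 2)) W) (j : ℕ) (hj : j ≤ q + 1) :
    cf (q + 2) j * (K H W j).card ≤ 2 ^ (q + 3) * (K H W (q + 1)).card := by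
  obtain ⟨t, ht⟩ : ∃ t, q + 1 = j + t := ⟨q + 1 - j, by omega⟩
  have h1 := cf_le (q + 2) j
  have h2 := two_pow_mul_K hE j t (by omega)
  rw [← ht] at h2
  have h3 : 2 ^ j * 2 ^ (q + 3) * 2 ^ t = 4 ^ (q + 2) := by
    rw [← pow_add, ← pow_add, show (4 : ℕ) = 2 ^ 2 by norm_num, ← pow_mul]
    congr 1
    omega
  have h4 : (2 ^ j * 2 ^ t) * (cf (q + 2) j * (K H W j).card) ≤
      (2 ^ j * 2 ^ t) * (2 ^ (q + 3) * (K H W (q + 1)).card) := by
    calc (2 ^ j * 2 ^ t) * (cf (q + 2) j * (K H W j).card)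
        = (cf (q + 2) j * 2 ^ j) * (2 ^ t * (K H W j).card) := by ring
      _ ≤ 4 ^ (q + 2) * (K H W (q + 1)).card := Nat.mul_le_mul h1 h2
      _ = (2 ^ j * 2 ^ t) * (2 ^ (q + 3) * (K H W (q + 1)).card) := by rw [← h3]; ring
  exact Nat.le_of_mul_le_mul_left h4 (by positivity)

/-- **the top gamma-number of dense complexes** -/
theorem top_nonneg {q s₀ D : ℕ} {W : Finset α} (hE : EP H (2 * (q + 2)) W) (a : ℕ → ℤ)
    (ha : FP H W = ∑ i ∈ Finset.range (2 * (q + 2) / 2 + 1),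
      C (a i) * w ^ i * y ^ (2 * (q + 2) - 2 * i))
    (h : Dense H W q D s₀) (hq : s₀ ≤ q) (hD : (q + 2) * (q + 5) ≤ D)
    (hs : 3 * (s₀ + 1) ≤ 2 * (q + 2) ∨ (3 * (s₀ + 1) ≤ 2 * (q + 2) + 3 ∧ Odd (s₀ + 1 + (q + 2))) ∨
      2 ^ (q + 3) * (q + 2) ^ 2 ≤ D) :
    0 ≤ a (q + 2) := by
  have h1 := gamma_eq (d := 2 * (q + 2)) (i := q + 2) le_rfl a
  rw [← ha, Nat.sub_self, Function.iterate_zero, id] at h1
  rw [← h1, LL]
  have hpos : ∀ j, 0 ≤ (cf (q + 2) j : ℤ) * (FP H W).coeff j := fun j => by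
    rw [coeff_FP]; positivity
  have hform : ∀ j ∈ Finset.range (q + 2 + 1), (-1 : ℤ) ^ (q + 2 + j) * (cf (q + 2) j : ℤ) *
      (FP H W).coeff j = (-1) ^ (q + 2 + j) * ((cf (q + 2) j : ℤ) * (FP H W).coeff j) :=
    fun j _ => by ring
  rw [Finset.sum_congr rfl hform]
  have hK := EP.K_pos hE (s := s₀ + 1) (by omega)
  by_cases hs' : 3 * (s₀ + 1) ≤ 2 * (q + 2) ∨
      (3 * (s₀ + 1) ≤ 2 * (q + 2) + 3 ∧ Odd (s₀ + 1 + (q + 2)))
  · refine alt_pair (fun j => (cf (q + 2) j : ℤ) * (FP H W).coeff j) (hpos 0) (q + 2)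
      (fun j hj he => ?_)
    simp only [coeff_FP]
    norm_cast
    rcases Nat.lt_or_ge s₀ j with hj0 | hj0
    · have h2 := growth hK hq h j (by omega) (by omega)
      have h3 : (q + 2) * ((q + 5) * (K H W j).card) ≤ (q + 2) * (K H W (j + 1)).card := by
        calc (q + 2) * ((q + 5) * (K H W j).card) = (q + 2) * (q + 5) * (K H W j).card := by ring
          _ ≤ D * (K H W j).card := Nat.mul_le_mul_right _ hD
          _ ≤ (j + 1) * (K H W (j + 1)).card := h2
          _ ≤ (q + 2) * (K H W (j + 1)).card := Nat.mul_le_mul_right _ hj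
      have h4 := Nat.le_of_mul_le_mul_left h3 (by omega)
      have h5 := cf_ratio (q + 2) j hj
      calc cf (q + 2) j * (K H W j).card
          ≤ (q + 2 + 3) * cf (q + 2) (j + 1) * (K H W j).card := Nat.mul_le_mul_right _ h5
        _ = cf (q + 2) (j + 1) * ((q + 5) * (K H W j).card) := by ring
        _ ≤ _ := Nat.mul_le_mul_left _ h4
    · have h6 : 3 * (j + 1) ≤ 2 * (q + 2) := by
        rcases hs' with hs' | ⟨hs1, hs2⟩
        · omega
        · rcases Nat.lt_or_ge j s₀ with h7 | h7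
          · omega
          · exfalso
            obtain rfl : j = s₀ := by omega
            rw [add_comm] at hs2
            exact (Nat.not_even_iff_odd.2 hs2) he
      have h2 := cf_cross h6
      have h3 := EP.K_growth hE (show j ≤ 2 * (q + 2) by omega)
      have h4 : (j + 1) * (cf (q + 2) j * (K H W j).card) ≤
          (j + 1) * (cf (q + 2) (j + 1) * (K H W (j + 1)).card) := by
        calc (j + 1) * (cf (q + 2) j * (K H W j).card)
            = ((j + 1) * cf (q + 2) j) * (K H W j).card := by ring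
          _ ≤ (2 * (2 * (q + 2) - j) * cf (q + 2) (j + 1)) * (K H W j).card :=
              Nat.mul_le_mul_right _ h2
          _ = cf (q + 2) (j + 1) * (2 * (2 * (q + 2) - j) * (K H W j).card) := by ring
          _ ≤ cf (q + 2) (j + 1) * ((j + 1) * (K H W (j + 1)).card) :=
              Nat.mul_le_mul_left _ h3
          _ = _ := by ring
      exact Nat.le_of_mul_le_mul_left h4 (Nat.succ_pos j)
  · have hD2 : 2 ^ (q + 3) * (q + 2) ^ 2 ≤ D := by
      rcases hs with hs | hs | hs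
      · exact absurd (Or.inl hs) hs'
      · exact absurd (Or.inr hs) hs'
      · exact hs
    refine alt_lower (fun j => (cf (q + 2) j : ℤ) * (FP H W).coeff j) (q + 2) hpos ?_
    simp only [coeff_FP]
    have h2 := growth hK hq h (q + 1) (by omega) le_rfl
    rw [show q + 1 + 1 = q + 2 from rfl] at h2
    have h3 : (q + 2) * ((q + 2) * (2 ^ (q + 3) * (K H W (q + 1)).card)) ≤
        (q + 2) * (K H W (q + 2)).card := by
      calc (q + 2) * ((q + 2) * (2 ^ (q + 3) * (K H W (q + 1)).card))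
          = 2 ^ (q + 3) * (q + 2) ^ 2 * (K H W (q + 1)).card := by ring
        _ ≤ D * (K H W (q + 1)).card := Nat.mul_le_mul_right _ hD2
        _ ≤ _ := h2
    have h4 := Nat.le_of_mul_le_mul_left h3 (by omega)
    have h5 : ∑ j ∈ Finset.range (q + 2), cf (q + 2) j * (K H W j).card ≤
        cf (q + 2) (q + 2) * (K H W (q + 2)).card := by
      have h6 : cf (q + 2) (q + 2) = 1 := by
        have h7 := (cf_DE (q + 2)).1 (q + 2) 0 (by omega)
        rw [cf_of_lt (show q + 2 < q + 2 + 1 by omega)] at h7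
        rw [h7]; simp
      rw [h6, one_mul]
      refine le_trans (Finset.sum_le_card_nsmul _ _ _ (fun j hj => small_terms hE j ?_)) ?_
      · rw [Finset.mem_range] at hj; omega
      · rw [Finset.card_range, smul_eq_mul]
        exact h4
    exact_mod_cast h5

/-- the Charney-Davis quantity of a dense complex -/
theorem lam_nonneg {q s₀ D : ℕ} {W : Finset α} (hE : EP H (2 * (q + 2)) W)
    (h : Dense H W q D s₀) (hq : s₀ ≤ q) (hD : (q + 2) * (q + 5) ≤ D)
    (hs : 3 * (s₀ + 1) ≤ 2 * (q + 2) ∨ (3 * (s₀ + 1) ≤ 2 * (q + 2) + 3 ∧ Odd (s₀ + 1 + (q + 2))) ∨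
      2 ^ (q + 3) * (q + 2) ^ 2 ≤ D) :
    0 ≤ (-1 : ℚ) ^ (q + 2) * lam H W := by
  obtain ⟨a, ha, -⟩ := GT_coeffs hE.FP_mem
  have h1 : 0 ≤ a (q + 2) := top_nonneg hE a ha h hq hD hs
  rw [← aeval_FP, ha, aeval_even]
  have h2 : (-1 : ℚ) ^ (q + 2) * (a (q + 2) * (-1 / 4) ^ (q + 2)) =
      a (q + 2) * (1 / 4) ^ (q + 2) := by
    rw [← neg_pow_quarter (q + 2)]; ring
  rw [h2]
  have h3 : (0 : ℚ) ≤ a (q + 2) := by exact_mod_cast h1
  positivity

theorem EP.of_np {α : Type} {H : SimpleGraph α} [DecidableEq α] {d : ℕ} {W : Finset α}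
    (h : NP H d W) (hE : Eul H d W) : EP H d W := by
  refine ⟨fun σ hσ => ?_, hE⟩
  obtain ⟨e, he, hNP, -, -⟩ := h.lkF hσ
  obtain ⟨β, hβ, hβc, -⟩ := hNP.exists_facet
  refine ⟨σ ∪ β, union_mem_cl hσ hβ, Finset.subset_union_left, ?_⟩
  rw [Finset.card_union_of_disjoint (disjoint_of_mem_cl_lkF hβ)]
  omega

end

end Pool.Agent.NH63.CD
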