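import Pool.Agent.NH63.CD.Main

set_option autoImplicit false

/-! # Dense flag homology spheres and dense flag Eulerian complexes -/

namespace Pool.Agent.NH63.CD

open Pool.Agent.W497.FS Pool.Agent.TH709.GG

/-- the number of faces with `j` vertices -/
def numFaces {n : ℕ} (S : Finset (Finset (Fin n))) (j : ℕ) : ℕ :=
  (S.filter (fun F => F.card = j)).card

/-- the number of cliques of `H` with `j` vertices inside `W`, that is, of faces with `j` vertices
of the flag complex on `W` -/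
noncomputable def numCliques {α : Type*} (H : SimpleGraph α) (W : Finset α) (j : ℕ) : ℕ :=
  ((cl H W).filter (fun σ => σ.card = j)).card

/-- `f j` is the number of faces with `j` vertices; the links of the faces with `s` vertices have on
average at least `((r - 1 - s) f 1 + s D) / (r - 1)` vertices (their total number of vertices is
`(s + 1) f (s + 1)`). For `s = 1` this means `2 (r - 1) f 2 ≥ (r - 2) (f 1)^2 + D f 1`. -/
def DenseLinks (f : ℕ → ℕ) (r s D : ℕ) : Prop :=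
  ((r - 1 - s) * f 1 + s * D) * f s ≤ (r - 1) * ((s + 1) * f (s + 1))

theorem numCliques_eq {α : Type*} (H : SimpleGraph α) (W : Finset α) (j : ℕ) :
    numCliques H W j = (K H W j).card := by
  rw [numCliques, K]

section

variable {α : Type*} {H : SimpleGraph α} [DecidableEq α]

theorem dense_of {W : Finset α} {r s D : ℕ} (hs : 1 ≤ s) (hr : s + 1 ≤ r)
    (h : DenseLinks (numCliques H W) r s D) : Dense H W (r - 2) D (s - 1) := by
  obtain ⟨s₀, rfl⟩ : ∃ s₀, s = s₀ + 1 := ⟨s - 1, by omega⟩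
  obtain ⟨q, rfl⟩ : ∃ q, r = q + 2 := ⟨r - 2, by omega⟩
  rw [DenseLinks, numCliques_eq, numCliques_eq, numCliques_eq, K_one] at h
  rw [Nat.add_sub_cancel, Nat.add_sub_cancel, Dense]
  rw [show q + 2 - 1 - (s₀ + 1) = q - s₀ by omega, show q + 2 - 1 = q + 1 by omega] at h
  exact h

/-- the numbers `D` allowed at the level `s` -/
def Allowed (m s D : ℕ) : Prop :=
  m * (m + 3) ≤ D ∧
    (3 * s ≤ 2 * m ∨ (3 * s ≤ 2 * m + 3 ∧ Odd (s + m)) ∨ 2 ^ (m + 1) * m ^ 2 ≤ D)

theorem ep_lam {m s D : ℕ} {W : Finset α} (hE : EP H (2 * m) W) (hs : 1 ≤ s) (hsm : s < m)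
    (hD : Allowed m s D) (h : DenseLinks (numCliques H W) m s D) :
    0 ≤ (-1 : ℚ) ^ m * lam H W := by
  have h1 := dense_of hs (by omega) h
  obtain ⟨hD1, hD2⟩ := hD
  obtain ⟨q, rfl⟩ : ∃ q, m = q + 2 := ⟨m - 2, by omega⟩
  obtain ⟨s₀, rfl⟩ : ∃ s₀, s = s₀ + 1 := ⟨s - 1, by omega⟩
  exact lam_nonneg hE h1 (by omega) hD1 hD2

theorem ep_gamma {d r s D : ℕ} {W : Finset α} (hE : EP H d W) (hs : 1 ≤ s) (hr : s + 1 ≤ r)
    (h : DenseLinks (numCliques H W) r s D) {g : ℕ → ℤ} (hg : IsGam H d W g) (i : ℕ)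
    (hi : i ≤ r) (hsi : i = 0 ∨ 2 * s ≤ i + 1) (hid : 2 * i ≤ d) (hD : i * (2 * d + 3 - 3 * i) ≤ D) :
    0 ≤ g i := by
  obtain ⟨a, ha, -⟩ := GT_coeffs hE.FP_mem
  have ha' := ha
  rw [FP_sum (fun σ hσ => hE.card_le hσ)] at ha'
  have h3 := stmB _ _ g a hg.2 ha'
  rw [h3 i (by omega)]
  refine gamma_nonneg hE a ha (dense_of hs hr h) i (by omega) (by omega) hid (by omega) ?_
  rw [show i + 3 + 2 * (d - 2 * i) = 2 * d + 3 - 3 * i by omega]
  exact hD

end

variable {k : Type} [Field k] {n d : ℕ} {S : Finset (Finset (Fin n))}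

theorem sphere_ep (h : IsFlagSphere k d S) : EP (skel S) d (vert S) :=
  EP.of_np h.np h.eul

theorem sphere_cliques (h : IsFlagSphere k d S) :
    numCliques (skel S) (vert S) = numFaces S := by
  funext j
  rw [numCliques, numFaces, h.cl_eq]

theorem sphere_cd {m s D : ℕ} (h : IsFlagSphere k (2 * m) S) (hs : 1 ≤ s) (hsm : s < m)
    (hD : Allowed m s D) (hf : DenseLinks (numFaces S) m s D) :
    0 ≤ (-1) ^ m * W497.FS.omega S := by
  rw [h.omega_eq]
  rw [← sphere_cliques h] at hf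
  exact ep_lam (sphere_ep h) hs hsm hD hf

theorem sphere_gamma {r s D : ℕ} (h : IsFlagSphere k d S) (hs : 1 ≤ s) (hr : s + 1 ≤ r)
    (hf : DenseLinks (numFaces S) r s D) {γ : ℕ → ℤ} (hγ : IsGamma d S γ) (i : ℕ)
    (hi : i ≤ r) (hsi : i = 0 ∨ 2 * s ≤ i + 1) (hid : 2 * i ≤ d) (hD : i * (2 * d + 3 - 3 * i) ≤ D) :
    0 ≤ γ i := by
  have hE := sphere_ep h
  obtain ⟨a, ha, -⟩ := GT_coeffs hE.FP_mem
  rw [h.gamma_eq hγ ha i (by omega)]
  rw [← sphere_cliques h] at hf
  refine gamma_nonneg hE a ha (dense_of hs hr hf) i (by omega) (by omega) hid (by omega) ?_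
  rw [show i + 3 + 2 * (d - 2 * i) = 2 * d + 3 - 3 * i by omega]
  exact hD

end Pool.Agent.NH63.CD
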